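import Mathlib
import Pool.Agent.Lib.helper21.Fix

set_option autoImplicit false

namespace Pool.Agent.Results.MP_55c7a7_lc.Holds

open Filter Pool.Agent.Lib.helper21.Tens Pool.Agent.Lib.helper21.Fix

def LeRK (u v : Ultrafilter ℕ) : Prop := ∃ f : ℕ → ℕ, u = v.map f

def Iso (u v : Ultrafilter ℕ) : Prop := LeRK u v ∧ LeRK v u

noncomputable def tp (u v : Ultrafilter ℕ) : Ultrafilter ℕ :=
  (u.bind fun i => v.map fun j => (i, j)).map Nat.pairEquiv

noncomputable def word : Ultrafilter ℕ → List (Ultrafilter ℕ) → Ultrafilter ℕ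
  | a, [] => a
  | a, b :: l => tp a (word b l)

lemma le_of {u v : Ultrafilter ℕ} {f : ℕ → ℕ} (h : Tendsto f v u) : LeRK u v :=
  ⟨f, (Ultrafilter.eq_of_le (f := v.map f) h).symm⟩

lemma LeRK.tendsto {u v : Ultrafilter ℕ} (h : LeRK u v) : ∃ f : ℕ → ℕ, Tendsto f v u := by
  obtain ⟨f, rfl⟩ := h
  exact ⟨f, tendsto_map⟩

lemma t1 (u v : Ultrafilter ℕ) : Tendsto Nat.pairEquiv (tens u v) (tp u v) := tendsto_map

lemma t2 (u v : Ultrafilter ℕ) : Tendsto Nat.pairEquiv.symm (tp u v) (tens u v) := fun A hA => by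
  show Nat.pairEquiv ⁻¹' (Nat.pairEquiv.symm ⁻¹' A) ∈ tens u v
  rwa [Equiv.preimage_symm_preimage]

lemma second {u v w : Ultrafilter ℕ} {f : ℕ × ℕ → ℕ × ℕ} (hf : Tendsto f (tens u v) (tens u w))
    (h : ∀ᶠ z in (tens u v : Filter (ℕ × ℕ)), (f z).1 = z.1) : LeRK w v := by
  by_contra hn
  have h1 : ∀ n, ∃ A ∈ w, ¬ ∀ᶠ m in (v : Filter ℕ), (f (n, m)).2 ∈ A := fun n => by
    by_contra hc
    push Not at hc
    exact hn (le_of (f := fun m => (f (n, m)).2) hc)
  choose A hA hA' using h1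
  have h2 : ∀ᶠ z in (tens u w : Filter (ℕ × ℕ)), z.2 ∈ A z.1 :=
    (ev_tens _ _ _).2 (Eventually.of_forall hA)
  obtain ⟨n, hn⟩ := ((ev_tens _ _ _).1 (h.and (hf.eventually h2))).exists
  exact hA' n (hn.mono fun m hm => by simpa only [hm.1] using hm.2)

lemma dich (u v : Ultrafilter ℕ) (k : ℕ × ℕ → ℕ) :
    (∃ σ : ℕ → ℕ, ∀ᶠ z in (tens u v : Filter (ℕ × ℕ)), k z = σ z.1) ∨
      ∀ᶠ z in (tens u v : Filter (ℕ × ℕ)), z.1 < k z := by
  rcases u.em fun n => ∀ᶠ m in (v : Filter ℕ), n < k (n, m) with h | h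
  · exact Or.inr ((ev_tens _ _ _).2 h)
  · have : ∀ n, ∃ c, (¬ ∀ᶠ m in (v : Filter ℕ), n < k (n, m)) →
        ∀ᶠ m in (v : Filter ℕ), k (n, m) = c := fun n => by
      by_cases hn : ∀ᶠ m in (v : Filter ℕ), n < k (n, m)
      · exact ⟨0, fun h => absurd hn h⟩
      · obtain ⟨c, -, hc⟩ := const_of_finite v (fun m => k (n, m)) (Set.finite_Iic n)
          ((Ultrafilter.eventually_not.2 hn).mono fun m hm => not_lt.1 hm)
        exact ⟨c, fun _ => hc⟩
    choose σ hσ using this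
    exact Or.inl ⟨σ, (ev_tens _ _ _).2 (h.mono hσ)⟩

lemma half {u v u' v' : Ultrafilter ℕ} (hu : LeRK u' u → u' = u) {f g : ℕ × ℕ → ℕ × ℕ}
    (hf : Tendsto f (tens u v) (tens u' v')) (hg : Tendsto g (tens u' v') (tens u v))
    {σ : ℕ → ℕ} (h : ∀ᶠ z in (tens u v : Filter (ℕ × ℕ)), (f z).1 = σ z.1) :
    u' = u ∧ Iso v v' := by
  have h1 : Tendsto σ u u' := fun A hA => by
    have := (ev_tens _ _ _).1 (h.and (((tendsto_fst u' v').comp hf).eventually hA))
    show ∀ᶠ n in (u : Filter ℕ), σ n ∈ A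
    filter_upwards [this] with n hn
    obtain ⟨m, h1, h2⟩ := hn.exists
    exact h1 ▸ h2
  obtain rfl := hu (le_of h1)
  have h2 : ∀ᶠ z in (tens u' v : Filter (ℕ × ℕ)), (f z).1 = z.1 := by
    filter_upwards [h, (tendsto_fst u' v).eventually (fix _ σ h1)] with z a b
    exact a.trans b
  refine ⟨rfl, second hg ?_, second hf h2⟩
  filter_upwards [hg.eventually h2, fix _ _ (hf.comp hg)] with z a b
  exact a.symm.trans (congrArg Prod.fst b)

lemma step {u v u' v' : Ultrafilter ℕ} (hu : LeRK u' u → u' = u) (hu' : LeRK u u' → u = u')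
    (h : Iso (tp u v) (tp u' v')) : u = u' ∧ Iso v v' := by
  obtain ⟨f0, hf0⟩ := h.2.tendsto
  obtain ⟨g0, hg0⟩ := h.1.tendsto
  have hf := (t2 _ _).comp (hf0.comp (t1 _ _))
  have hg := (t2 _ _).comp (hg0.comp (t1 _ _))
  generalize Nat.pairEquiv.symm ∘ f0 ∘ Nat.pairEquiv = f at hf
  generalize Nat.pairEquiv.symm ∘ g0 ∘ Nat.pairEquiv = g at hg
  rcases dich u v fun z => (f z).1 with ⟨σ, h1⟩ | h1
  · exact (half hu hf hg h1).imp_left Eq.symm
  rcases dich u' v' fun z => (g z).1 with ⟨σ, h2⟩ | h2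
  · exact (half hu' hg hf h2).imp_right And.symm
  obtain ⟨z, a, b, c⟩ := (h1.and ((hf.eventually h2).and (fix _ _ (hg.comp hf)))).exists
  have c' : g (f z) = z := c
  rw [c'] at b
  omega

lemma base {a b v : Ultrafilter ℕ} (hv : ∀ n, v ≠ pure n) (hb : LeRK b a → b = a) :
    ¬ LeRK (tp b v) a := by
  intro h
  obtain ⟨f0, hf0⟩ := h.tendsto
  have hf := (t2 _ _).comp hf0
  generalize Nat.pairEquiv.symm ∘ f0 = f at hf
  have h1 := (tendsto_fst _ _).comp hf
  obtain rfl := hb (le_of h1)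
  have h2 : ∀ᶠ z in (tens b v : Filter (ℕ × ℕ)), z.2 ≠ (f z.1).2 :=
    (ev_tens _ _ _).2 (Eventually.of_forall fun n =>
      v.le_cofinite_or_eq_pure.resolve_right (fun ⟨a, ha⟩ => hv a ha)
        (Set.finite_singleton (f n).2).compl_mem_cofinite)
  obtain ⟨i, a, c⟩ := ((fix _ _ h1).and (hf.eventually h2)).exists
  exact c (by rw [show (f i).1 = i from a])

lemma word_np {a : Ultrafilter ℕ} (ha : ∀ n, a ≠ pure n) (l : List (Ultrafilter ℕ)) (n : ℕ) :
    word a l ≠ pure n := by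
  cases l with
  | nil => exact ha n
  | cons b l =>
    intro h
    have := (tendsto_fst _ _).comp (t2 a (word b l))
    rw [show tp a (word b l) = pure n from h] at this
    exact ha _ (Ultrafilter.eq_of_le ((tendsto_pure_left.trans
      (pure_le_iff (l := (a : Filter ℕ))).symm).1 this)).symm

theorem result (A : Set (Ultrafilter ℕ)) (hA : ∀ u ∈ A, ∀ n, u ≠ pure n)
    (hI : ∀ u ∈ A, ∀ v ∈ A, u ≠ v → ¬ LeRK u v) (a b : Ultrafilter ℕ)
    (l m : List (Ultrafilter ℕ)) (hl : ∀ x ∈ a :: l, x ∈ A) (hm : ∀ x ∈ b :: m, x ∈ A)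
    (h : Iso (word a l) (word b m)) : a :: l = b :: m := by
  have hE : ∀ u ∈ A, ∀ v ∈ A, LeRK u v → u = v := fun u hu v hv h =>
    by_contra fun hn => hI u hu v hv hn h
  induction l generalizing a b m with
  | nil =>
    cases m with
    | nil => rw [hE a (hl a (by simp)) b (hm b (by simp)) h.1]
    | cons c m =>
      exact absurd h.2 (base (word_np (hA c (hm c (by simp))) m)
        (hE b (hm b (by simp)) a (hl a (by simp))))
  | cons d l ih =>
    cases m with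
    | nil =>
      exact absurd h.1 (base (word_np (hA d (hl d (by simp))) l)
        (hE a (hl a (by simp)) b (hm b (by simp))))
    | cons c m =>
      obtain ⟨rfl, h2⟩ := step (hE b (hm b (by simp)) a (hl a (by simp)))
        (hE a (hl a (by simp)) b (hm b (by simp))) h
      rw [ih d c m (fun x hx => hl x (List.mem_cons_of_mem _ hx))
        (fun x hx => hm x (List.mem_cons_of_mem _ hx)) h2]

end Pool.Agent.Results.MP_55c7a7_lc.Holds
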